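import Mathlib
import Pool.Agent.H467R3.PD.Final

set_option autoImplicit false
set_option linter.unusedSectionVars false
set_option linter.unusedVariables false

/-! Transfer from `(Z/m)^d` to the integer grid, all dimensions. -/

namespace Pool.Agent.Y940.PDd

open Finset
open Pool.Agent.H467R3.PD (Wt avg cnt isUnit_of_dvd ite_mul3)

variable {d : ℕ}

/-- reduction modulo `m` -/
def red (m : ℕ) (x : Fin d → ℤ) : Fin d → ZMod m := fun i => (x i : ZMod m)

lemma red_sub (m : ℕ) (x y : Fin d → ℤ) : red m (x - y) = red m x - red m y := by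
  funext i; simp [red]

lemma red_add (m : ℕ) (x y : Fin d → ℤ) : red m (x + y) = red m x + red m y := by
  funext i; simp [red]

/-- the homomorphism attached to an integer matrix -/
def toHom (m : ℕ) (M : Matrix (Fin d) (Fin d) ℤ) : (Fin d → ZMod m) →+ (Fin d → ZMod m) :=
  (Matrix.mulVecLin (M.map (Int.cast : ℤ → ZMod m))).toAddMonoidHom

lemma toHom_apply (m : ℕ) (M : Matrix (Fin d) (Fin d) ℤ) (v : Fin d → ZMod m) :
    toHom m M v = (M.map (Int.cast : ℤ → ZMod m)).mulVec v := rfl

lemma toHom_red (m : ℕ) (M : Matrix (Fin d) (Fin d) ℤ) (n : Fin d → ℤ) :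
    toHom m M (red m n) = red m (M.mulVec n) := by
  funext i
  rw [toHom_apply]
  simp only [Matrix.mulVec, dotProduct, red, Matrix.map_apply]
  push_cast
  rfl

lemma toHom_sub (m : ℕ) (M₁ M₂ : Matrix (Fin d) (Fin d) ℤ) :
    toHom m M₁ - toHom m M₂ = toHom m (M₁ - M₂) := by
  refine AddMonoidHom.ext fun v => funext fun i => ?_
  simp only [AddMonoidHom.sub_apply, toHom_apply, Matrix.mulVec, dotProduct,
    Matrix.map_apply, Pi.sub_apply, Matrix.sub_apply]
  rw [← Finset.sum_sub_distrib]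
  refine Finset.sum_congr rfl fun j _ => ?_
  push_cast
  ring

lemma toHom_bij (m : ℕ) [NeZero m] (M : Matrix (Fin d) (Fin d) ℤ)
    (h : IsUnit ((M.det : ℤ) : ZMod m)) :
    Function.Bijective (toHom m M) := by
  rw [← Finite.injective_iff_bijective]
  have h1 : IsUnit (M.map (Int.cast : ℤ → ZMod m)) := by
    rw [Matrix.isUnit_iff_isUnit_det]
    have : (M.map (Int.cast : ℤ → ZMod m)).det = ((M.det : ℤ) : ZMod m) :=
      ((Int.castRingHom (ZMod m)).map_det M).symm
    rw [this]; exact h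
  exact Matrix.mulVec_injective_of_isUnit h1

/-- two integer vectors that agree modulo `m` and are close are equal -/
lemma eq_of_red (m : ℕ) {x y : Fin d → ℤ} (h : red m x = red m y) (hc : ∀ i, |x i - y i| < m) :
    x = y := by
  funext i
  have h1 : ((x i : ℤ) : ZMod m) = ((y i : ℤ) : ZMod m) := congrFun h i
  rw [← sub_eq_zero, ← Int.cast_sub, ZMod.intCast_zmod_eq_zero_iff_dvd] at h1
  have h2 := Int.eq_zero_of_abs_lt_dvd h1 (hc i)
  omega

/-- box -/
noncomputable def box (d L : ℕ) : Finset (Fin d → ℤ) :=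
  Fintype.piFinset fun _ => Finset.Ioo (-(L : ℤ)) L

lemma mem_box (L : ℕ) (x : Fin d → ℤ) : x ∈ box d L ↔ ∀ i, -(L : ℤ) < x i ∧ x i < L := by
  simp [box]

lemma card_bad (M : Matrix (Fin d) (Fin d) ℤ) (hM : M ≠ 0) (L : ℕ) :
    ((box d L).filter fun n => M.mulVec n = 0).card ≤ (2 * L) ^ (d - 1) := by
  classical
  have : ∃ i j, M i j ≠ 0 := by
    by_contra hcon
    push Not at hcon
    exact hM (by ext i j; simpa using hcon i j)
  obtain ⟨i, j, hij⟩ := this
  have hcard : (Finset.Ioo (-(L : ℤ)) L).card ≤ 2 * L := by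
    rw [Int.card_Ioo]; omega
  have hc2 : (Fintype.piFinset fun _ : {k : Fin d // k ≠ j} => Finset.Ioo (-(L : ℤ)) L).card ≤
      (2 * L) ^ (d - 1) := by
    rw [Fintype.card_piFinset, Finset.prod_const, Finset.card_univ]
    have : Fintype.card {k : Fin d // k ≠ j} = d - 1 := by
      rw [Fintype.card_subtype_compl]; simp
    rw [this]
    exact Nat.pow_le_pow_left hcard _
  refine le_trans ?_ hc2
  refine Finset.card_le_card_of_injOn (fun n => fun k : {k : Fin d // k ≠ j} => n k.1) ?_ ?_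
  · intro n hn
    have h := (mem_box L n).1 (Finset.mem_filter.1 hn).1
    rw [Finset.mem_coe, Fintype.mem_piFinset]
    intro k
    exact Finset.mem_Ioo.2 (h k.1)
  · intro n hn n' hn' h
    have e1 := congrFun (Finset.mem_filter.1 hn).2 i
    have e2 := congrFun (Finset.mem_filter.1 hn').2 i
    have hk : ∀ k, k ≠ j → n k = n' k := fun k hk => congrFun h ⟨k, hk⟩
    have e3 : ∑ k, M i k * (n k - n' k) = 0 := by
      have a1 : ∑ k, M i k * n k = 0 := e1
      have a2 : ∑ k, M i k * n' k = 0 := e2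
      simp_rw [mul_sub]
      rw [Finset.sum_sub_distrib, a1, a2, sub_zero]
    rw [Finset.sum_eq_single j (fun k _ hkj => by rw [hk k hkj]; ring)
      (fun h => absurd (Finset.mem_univ j) h)] at e3
    have e4 : n j - n' j = 0 := by
      rcases mul_eq_zero.1 e3 with h | h
      · exact absurd h hij
      · exact h
    funext k
    by_cases hkj : k = j
    · rw [hkj]; omega
    · exact hk k hkj

/-- indicator of the reduction of `A` -/
noncomputable def ind (m : ℕ) (A : Finset (Fin d → ℤ)) (x : Fin d → ZMod m) : ℝ := by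
  classical
  exact if x ∈ A.image (red m) then 1 else 0

lemma ind_nonneg (m : ℕ) (A : Finset (Fin d → ℤ)) (x : Fin d → ZMod m) : 0 ≤ ind m A x := by
  unfold ind; split_ifs <;> norm_num

lemma ind_le_one (m : ℕ) (A : Finset (Fin d → ℤ)) (x : Fin d → ZMod m) : ind m A x ≤ 1 := by
  unfold ind; split_ifs <;> norm_num

/-- the number of copies with difference `n` -/
def copies (M₁ M₂ : Matrix (Fin d) (Fin d) ℤ) (A : Finset (Fin d → ℤ)) (n : Fin d → ℤ) : ℕ :=
  (A.filter fun x => x + M₁.mulVec n ∈ A ∧ x + M₂.mulVec n ∈ A).card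

lemma cnt_le_copies (m : ℕ) [NeZero m] (M₁ M₂ : Matrix (Fin d) (Fin d) ℤ)
    (A : Finset (Fin d → ℤ)) (N K : ℕ) (hA : ∀ x ∈ A, ∀ i, 1 ≤ x i ∧ x i ≤ N)
    (n : Fin d → ℤ) (h1 : ∀ i, |M₁.mulVec n i| ≤ K) (h2 : ∀ i, |M₂.mulVec n i| ≤ K)
    (hm : N + K ≤ m) :
    cnt (toHom m M₂) (toHom m M₁) (ind m A) (ind m A) (ind m A) (red m n) ≤
      (copies M₁ M₂ A n : ℝ) := by
  classical
  have hm' : ((N : ℤ) + K) ≤ m := by exact_mod_cast hm
  have e1 : cnt (toHom m M₂) (toHom m M₁) (ind m A) (ind m A) (ind m A) (red m n) =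
      ((Finset.univ.filter fun x : Fin d → ZMod m => x ∈ A.image (red m) ∧
        x + toHom m M₂ (red m n) ∈ A.image (red m) ∧
        x + toHom m M₁ (red m n) ∈ A.image (red m)).card : ℝ) := by
    unfold cnt
    rw [Finset.card_filter]
    push_cast
    refine Finset.sum_congr rfl fun x _ => ?_
    unfold ind
    convert ite_mul3 _ _ _
  rw [e1]
  have close : ∀ (M : Matrix (Fin d) (Fin d) ℤ) (_ : ∀ i, |M.mulVec n i| ≤ K) (a b : Fin d → ℤ),
      a ∈ A → b ∈ A → red m b = red m a + toHom m M (red m n) → a + M.mulVec n = b := by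
    intro M hM a b ha hb h
    rw [toHom_red, ← red_add] at h
    refine (eq_of_red m h ?_).symm
    intro i
    have a1 := hA a ha i
    have b1 := hA b hb i
    have c1 := abs_le.1 (hM i)
    rw [Pi.add_apply, abs_lt]
    constructor <;> omega
  have sub : (Finset.univ.filter fun x : Fin d → ZMod m => x ∈ A.image (red m) ∧
        x + toHom m M₂ (red m n) ∈ A.image (red m) ∧
        x + toHom m M₁ (red m n) ∈ A.image (red m)) ⊆
      (A.filter fun x => x + M₁.mulVec n ∈ A ∧ x + M₂.mulVec n ∈ A).image (red m) := by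
    intro x hx
    obtain ⟨_, hx1, hx2, hx3⟩ := Finset.mem_filter.1 hx
    obtain ⟨a, ha, rfl⟩ := Finset.mem_image.1 hx1
    obtain ⟨b, hb, hb'⟩ := Finset.mem_image.1 hx2
    obtain ⟨c, hc, hc'⟩ := Finset.mem_image.1 hx3
    have e2 := close M₂ h2 a b ha hb hb'
    have e3 := close M₁ h1 a c ha hc hc'
    refine Finset.mem_image_of_mem _ (Finset.mem_filter.2 ⟨ha, ?_, ?_⟩)
    · rw [e3]; exact hc
    · rw [e2]; exact hb
  unfold copies
  exact_mod_cast (Finset.card_le_card sub).trans Finset.card_image_le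

/-- total size of the entries -/
def ent (M : Matrix (Fin d) (Fin d) ℤ) : ℕ := ∑ i, ∑ j, (M i j).natAbs

lemma ent_bound (M : Matrix (Fin d) (Fin d) ℤ) (L : ℕ) (n : Fin d → ℤ) (hn : n ∈ box d L)
    (i : Fin d) : |M.mulVec n i| ≤ (ent M * L : ℕ) := by
  have h := (mem_box L n).1 hn
  have h0 : ∀ j, |n j| ≤ L := fun j => abs_le.2 ⟨(h j).1.le, (h j).2.le⟩
  have e1 : M.mulVec n i = ∑ j, M i j * n j := rfl
  have e2 : ∑ j, |M i j| ≤ (ent M : ℕ) := by
    unfold ent
    push_cast
    exact Finset.single_le_sum (f := fun i => ∑ j, |M i j|)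
      (fun i _ => Finset.sum_nonneg fun j _ => abs_nonneg _) (Finset.mem_univ i)
  rw [e1]
  calc |∑ j, M i j * n j| ≤ ∑ j, |M i j * n j| := Finset.abs_sum_le_sum_abs _ _
    _ ≤ ∑ j, |M i j| * L := Finset.sum_le_sum fun j _ => by
        rw [abs_mul]; exact mul_le_mul_of_nonneg_left (h0 j) (abs_nonneg _)
    _ = (∑ j, |M i j|) * L := by rw [Finset.sum_mul]
    _ ≤ (ent M : ℕ) * L := mul_le_mul_of_nonneg_right e2 (by positivity)
    _ = _ := by push_cast; ring

lemma sum_ind (m : ℕ) [NeZero m] (A : Finset (Fin d → ℤ)) (N : ℕ) (hNm : N ≤ m)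
    (hA : ∀ x ∈ A, ∀ i, 1 ≤ x i ∧ x i ≤ N) : ∑ x, ind m A x = (A.card : ℝ) := by
  classical
  unfold ind
  rw [Finset.sum_boole]
  congr 1
  have e : (Finset.univ.filter fun x : Fin d → ZMod m => x ∈ A.image (red m)) =
      A.image (red m) := by
    ext x; simp
  have : (Finset.univ.filter fun x : Fin d → ZMod m => x ∈ A.image (red m)).card = A.card := by
    rw [e]
    refine Finset.card_image_of_injOn ?_
    intro x hx y hy h
    have hx' : x ∈ A := hx
    have hy' : y ∈ A := hy
    refine eq_of_red m h ?_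
    intro i
    have a1 := hA x hx' i
    have b1 := hA y hy' i
    have : (N : ℤ) ≤ m := by exact_mod_cast hNm
    rw [abs_lt]
    constructor <;> omega
  convert this

end Pool.Agent.Y940.PDd
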