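import Mathlib
import Pool.Agent.Y940.PDd.Red

set_option autoImplicit false
set_option linter.unusedSectionVars false
set_option linter.unusedVariables false

namespace Pool.Agent.Y940.PDd

open Finset
open Pool.Agent.H467R3.PD (Wt avg cnt cnt_abs_le pick exists_good isUnit_of_dvd)

variable {d : ℕ}

/-- The admissible popular differences in the box of side `2 R`. -/
noncomputable def pop (M₁ M₂ : Matrix (Fin d) (Fin d) ℤ) (A : Finset (Fin d → ℤ)) (L : ℕ) (V : ℝ) :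
    Finset (Fin d → ℤ) := by
  classical
  exact (box d L).filter fun n => M₁.mulVec n ≠ 0 ∧ M₂.mulVec n ≠ 0 ∧ M₁.mulVec n ≠ M₂.mulVec n ∧
    V < (copies M₁ M₂ A n : ℝ)

lemma mem_pop (M₁ M₂ : Matrix (Fin d) (Fin d) ℤ) (A : Finset (Fin d → ℤ)) (L : ℕ) (V : ℝ)
    (n : Fin d → ℤ) : n ∈ pop M₁ M₂ A L V ↔ n ∈ box d L ∧ M₁.mulVec n ≠ 0 ∧ M₂.mulVec n ≠ 0 ∧
      M₁.mulVec n ≠ M₂.mulVec n ∧ V < (copies M₁ M₂ A n : ℝ) := by
  unfold pop; rw [Finset.mem_filter]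

/-- numerical core -/
lemma numeric {α e κ η P g a : ℝ} (hα : 0 < α) (he : 0 < e) (heα : e ≤ α ^ 3)
    (hκ : κ = e / (8 * α ^ 3)) (hη0 : 0 < η) (hη : η ≤ e / 40)
    (hP : 0 < P) (hPg : P ≤ g) (hg : g ≤ (1 + κ) * P) (ha : α * P ≤ a) :
    (α ^ 3 - e / 2) * P ≤ a ^ 3 / g ^ 2 - 5 * η * g := by
  have hα3 : 0 < α ^ 3 := by positivity
  have hκ0 : 0 < κ := by rw [hκ]; positivity
  have hκ1 : κ ≤ 1 / 8 := by
    rw [hκ, div_le_div_iff₀ (by positivity) (by norm_num)]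
    nlinarith
  have hg0 : 0 < g := by linarith
  have hα4 : 2 * κ * α ^ 3 = e / 4 := by rw [hκ]; field_simp; ring
  have p1 : (1 - 2 * κ) * g ^ 2 ≤ P ^ 2 := by
    have b1 : 1 - 2 * κ ≤ (1 - κ) ^ 2 := by nlinarith
    have b2 : g ^ 2 ≤ ((1 + κ) * P) ^ 2 := pow_le_pow_left₀ hg0.le hg 2
    have b4 : (1 - κ ^ 2) ^ 2 ≤ 1 := pow_le_one₀ (by nlinarith) (by nlinarith)
    calc (1 - 2 * κ) * g ^ 2 ≤ (1 - κ) ^ 2 * g ^ 2 :=
          mul_le_mul_of_nonneg_right b1 (by positivity)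
      _ ≤ (1 - κ) ^ 2 * ((1 + κ) * P) ^ 2 := mul_le_mul_of_nonneg_left b2 (by positivity)
      _ = ((1 - κ ^ 2)) ^ 2 * P ^ 2 := by ring
      _ ≤ 1 * P ^ 2 := mul_le_mul_of_nonneg_right b4 (by positivity)
      _ = _ := one_mul _
  have p2 : (α ^ 3 - e / 4) * P ≤ a ^ 3 / g ^ 2 := by
    rw [le_div_iff₀ (by positivity)]
    have c1 : (α * P) ^ 3 ≤ a ^ 3 := pow_le_pow_left₀ (by positivity) ha 3
    have c2 : (α ^ 3 - e / 4) * P * g ^ 2 = α ^ 3 * P * ((1 - 2 * κ) * g ^ 2) := by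
      rw [← hα4]; ring
    rw [c2]
    calc α ^ 3 * P * ((1 - 2 * κ) * g ^ 2) ≤ α ^ 3 * P * P ^ 2 :=
          mul_le_mul_of_nonneg_left p1 (by positivity)
      _ = (α * P) ^ 3 := by ring
      _ ≤ a ^ 3 := c1
  have p3 : 5 * η * g ≤ e / 4 * P := by
    have c1 : g ≤ 2 * P := by nlinarith
    calc 5 * η * g ≤ 5 * η * (2 * P) := mul_le_mul_of_nonneg_left c1 (by positivity)
      _ = 10 * η * P := by ring
      _ ≤ e / 4 * P := mul_le_mul_of_nonneg_right (by linarith) hP.le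
  nlinarith

lemma core (M₁ M₂ : Matrix (Fin d) (Fin d) ℤ) (h1 : M₁.det ≠ 0) (h1' : (M₁ - M₂).det ≠ 0)
    (h2 : M₂ ≠ 0)
    (m N R K : ℕ) [NeZero m] (u1 : IsUnit ((M₁.det : ℤ) : ZMod m))
    (u2 : IsUnit (((M₁ - M₂).det : ℤ) : ZMod m)) (hNm : N + K ≤ m)
    (hK : (ent M₁ + ent M₂) * (2 * R) ≤ K) (hRm : R ≤ m) (hR0 : 0 < R)
    (A : Finset (Fin d → ℤ)) (hA : ∀ x ∈ A, ∀ i, 1 ≤ x i ∧ x i ≤ N)
    (B0 η C V : ℝ) (hC : 0 ≤ C) (hV : 0 ≤ V)
    (hmain : ∀ (A B : (Fin d → ZMod m) →+ (Fin d → ZMod m)) (I S : Finset (Fin d → ZMod m)),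
      Function.Bijective B → Function.Bijective (B - A) →
      I.Nonempty → (∀ u ∈ I, ∀ v ∈ I, u - v ∈ S) →
      (Fintype.card (Fin d → ZMod m) : ℝ) ≤ B0 * I.card →
      ∀ (f : (Fin d → ZMod m) → ℝ) (_ : ∀ x, 0 ≤ f x) (_ : ∀ x, f x ≤ 1),
      ∃ w : (Fin d → ZMod m) → ℝ, Wt S (C / Fintype.card (Fin d → ZMod m)) w ∧
        (∑ x, f x) ^ 3 / (Fintype.card (Fin d → ZMod m) : ℝ) ^ 2 -
          5 * η * Fintype.card (Fin d → ZMod m) ≤ avg w (cnt A B f f f))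
    (hsize : (m : ℝ) ^ d ≤ B0 * (R : ℝ) ^ d) :
    (A.card : ℝ) ^ 3 / ((m : ℝ) ^ d) ^ 2 - 5 * η * (m : ℝ) ^ d ≤
      V + (((pop M₁ M₂ A (2 * R) V).card : ℝ) + (4 * (R:ℝ)) ^ (d - 1)) * C := by
  classical
  by_contra hcon
  push Not at hcon
  have hcardG : (Fintype.card (Fin d → ZMod m) : ℝ) = (m : ℝ) ^ d := by
    have : Fintype.card (Fin d → ZMod m) = m ^ d := by
      simp [ZMod.card]
    rw [this]; push_cast; rfl
  -- the sets
  obtain ⟨I₀, hI₀⟩ : ∃ I₀ : Finset (Fin d → ℤ),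
      I₀ = Fintype.piFinset fun _ => Finset.Ico (0 : ℤ) R := ⟨_, rfl⟩
  have hmemI : ∀ x : Fin d → ℤ, x ∈ I₀ ↔ ∀ i, 0 ≤ x i ∧ x i < R := by
    intro x; simp [hI₀]
  obtain ⟨I, hI⟩ : ∃ I : Finset (Fin d → ZMod m), I = I₀.image (red m) := ⟨_, rfl⟩
  have hIcard : I.card = R ^ d := by
    rw [hI, Finset.card_image_of_injOn]
    · rw [hI₀, Fintype.card_piFinset]; simp
    · intro x hx y hy h
      have hx' := (hmemI x).1 hx
      have hy' := (hmemI y).1 hy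
      refine eq_of_red m h ?_
      intro i
      have a1 := hx' i
      have b1 := hy' i
      have : (R : ℤ) ≤ m := by exact_mod_cast hRm
      rw [abs_lt]
      constructor <;> omega
  obtain ⟨S, hS⟩ : ∃ S : Finset (Fin d → ZMod m), S = (box d R).image (red m) := ⟨_, rfl⟩
  have hIne : I.Nonempty := by
    rw [← Finset.card_pos, hIcard]; positivity
  have hIS : ∀ u ∈ I, ∀ v ∈ I, u - v ∈ S := by
    intro u hu v hv
    rw [hI] at hu hv
    obtain ⟨x, hx, rfl⟩ := Finset.mem_image.1 hu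
    obtain ⟨y, hy, rfl⟩ := Finset.mem_image.1 hv
    rw [← red_sub, hS]
    refine Finset.mem_image_of_mem _ ((mem_box R _).2 fun i => ?_)
    have a1 := (hmemI x).1 hx i
    have b1 := (hmemI y).1 hy i
    rw [Pi.sub_apply]
    constructor <;> omega
  have hsize' : (Fintype.card (Fin d → ZMod m) : ℝ) ≤ B0 * I.card := by
    rw [hcardG, hIcard]
    push_cast
    exact hsize
  have hbij1 : Function.Bijective (toHom m M₁) := toHom_bij m M₁ u1
  have hbij2 : Function.Bijective (toHom m M₁ - toHom m M₂) := by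
    rw [toHom_sub]
    exact toHom_bij m _ u2
  obtain ⟨w, hw, hw2⟩ := hmain (toHom m M₂) (toHom m M₁) I S hbij1 hbij2 hIne hIS hsize'
    (ind m A) (ind_nonneg m A) (ind_le_one m A)
  have hsum : ∑ x, ind m A x = (A.card : ℝ) := sum_ind m A N (by omega) hA
  obtain ⟨Ker, hKer⟩ : ∃ Ker : Finset (Fin d → ℤ),
      Ker = (box d (2 * R)).filter fun n => M₂.mulVec n = 0 := ⟨_, rfl⟩
  have hKerc : (Ker.card : ℝ) ≤ (4 * (R:ℝ)) ^ (d - 1) := by
    have a1 : Ker.card ≤ (2 * (2 * R)) ^ (d - 1) := by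
      rw [hKer]; exact card_bad M₂ h2 (2 * R)
    have a2 : (Ker.card : ℝ) ≤ (((2 * (2 * R)) ^ (d - 1) : ℕ) : ℝ) := by exact_mod_cast a1
    push_cast at a2
    have e : (2 * (2 * (R:ℝ))) = 4 * R := by ring
    rw [e] at a2
    exact a2
  obtain ⟨Bad, hBad⟩ : ∃ Bad : Finset (Fin d → ZMod m),
      Bad = (pop M₁ M₂ A (2 * R) V ∪ Ker).image (red m) := ⟨_, rfl⟩
  have hBadcard : (Bad.card : ℝ) ≤
      ((pop M₁ M₂ A (2 * R) V).card : ℝ) + (4 * (R:ℝ)) ^ (d - 1) := by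
    have a1 : Bad.card ≤ (pop M₁ M₂ A (2 * R) V).card + Ker.card := by
      rw [hBad]
      exact Finset.card_image_le.trans (Finset.card_union_le _ _)
    have a2 : (Bad.card : ℝ) ≤ (((pop M₁ M₂ A (2 * R) V).card + Ker.card : ℕ) : ℝ) := by
      exact_mod_cast a1
    push_cast at a2
    linarith
  have hgpos : (0 : ℝ) < Fintype.card (Fin d → ZMod m) := by exact_mod_cast Fintype.card_pos
  rw [hsum] at hw2
  have hFle : ∀ n, cnt (toHom m M₂) (toHom m M₁) (ind m A) (ind m A) (ind m A) n ≤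
      Fintype.card (Fin d → ZMod m) := by
    intro n
    refine (le_abs_self _).trans ((cnt_abs_le _ _ _ _ (ind_nonneg m A) (ind_le_one m A) n).trans ?_)
    calc ∑ x, |ind m A x| ≤ ∑ _x : (Fin d → ZMod m), (1 : ℝ) := by
          refine Finset.sum_le_sum fun x _ => ?_
          rw [abs_of_nonneg (ind_nonneg m A x)]
          exact ind_le_one m A x
      _ = _ := by simp
  obtain ⟨n₁, hn₁, n₂, hn₂, hnb, hbig⟩ := pick hw
    (cnt (toHom m M₂) (toHom m M₁) (ind m A) (ind m A) (ind m A)) hFle hgpos.le Bad hV (by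
      have a1 : (Bad.card : ℝ) * (C / Fintype.card (Fin d → ZMod m)) *
          Fintype.card (Fin d → ZMod m) ≤
          (((pop M₁ M₂ A (2 * R) V).card : ℝ) + (4 * (R:ℝ)) ^ (d - 1)) * C := by
        have : (Bad.card : ℝ) * (C / Fintype.card (Fin d → ZMod m)) *
          Fintype.card (Fin d → ZMod m) = Bad.card * C := by
          field_simp
        rw [this]
        exact mul_le_mul_of_nonneg_right hBadcard hC
      rw [hcardG] at hw2 a1 ⊢
      linarith)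
  rw [hS] at hn₁ hn₂
  obtain ⟨x₁, hx₁, rfl⟩ := Finset.mem_image.1 hn₁
  obtain ⟨x₂, hx₂, rfl⟩ := Finset.mem_image.1 hn₂
  rw [← red_sub] at hnb hbig
  obtain ⟨n, hn⟩ : ∃ n, n = x₁ - x₂ := ⟨_, rfl⟩
  rw [← hn] at hnb hbig
  have hnbox : n ∈ box d (2 * R) := by
    rw [mem_box]
    intro i
    have a1 := (mem_box R x₁).1 hx₁ i
    have b1 := (mem_box R x₂).1 hx₂ i
    rw [hn, Pi.sub_apply]
    push_cast
    constructor <;> omega
  have hM2 : M₂.mulVec n ≠ 0 := by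
    intro h
    apply hnb
    rw [hBad]
    refine Finset.mem_image_of_mem _ (Finset.mem_union_right _ ?_)
    rw [hKer]
    exact Finset.mem_filter.2 ⟨hnbox, h⟩
  have hn0 : n ≠ 0 := by
    intro h
    apply hM2
    rw [h, Matrix.mulVec_zero]
  have hM1 : M₁.mulVec n ≠ 0 := fun h => hn0 (Matrix.eq_zero_of_mulVec_eq_zero h1 h)
  have hM12 : M₁.mulVec n ≠ M₂.mulVec n := by
    intro h
    apply hn0
    apply Matrix.eq_zero_of_mulVec_eq_zero h1'
    rw [Matrix.sub_mulVec, h, sub_self]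
  have hb1 : ∀ i, |M₁.mulVec n i| ≤ (K : ℤ) := by
    intro i
    refine (ent_bound M₁ (2 * R) n hnbox i).trans ?_
    have : ent M₁ * (2 * R) ≤ K := (Nat.mul_le_mul_right _ (by omega)).trans hK
    exact_mod_cast this
  have hb2 : ∀ i, |M₂.mulVec n i| ≤ (K : ℤ) := by
    intro i
    refine (ent_bound M₂ (2 * R) n hnbox i).trans ?_
    have : ent M₂ * (2 * R) ≤ K := (Nat.mul_le_mul_right _ (by omega)).trans hK
    exact_mod_cast this
  apply hnb
  rw [hBad]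
  refine Finset.mem_image_of_mem _ (Finset.mem_union_left _ ?_)
  rw [mem_pop]
  exact ⟨hnbox, hM1, hM2, hM12, hbig.trans_le (cnt_le_copies m M₁ M₂ A N K hA n hb1 hb2 hNm)⟩

end Pool.Agent.Y940.PDd
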