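import Mathlib
import Pool.Agent.Y940.PDd.Core

set_option autoImplicit false
set_option linter.unusedSectionVars false
set_option linter.unusedVariables false

namespace Pool.Agent.Y940.PDd

open Finset
open Pool.Agent.H467R3.PD (Wt avg cnt cnt_abs_le pick exists_good isUnit_of_dvd)

variable {d : ℕ}

lemma one_add_pow_le (κ : ℝ) (h0 : 0 ≤ κ) (h1 : κ ≤ 1) (d : ℕ) :
    (1 + κ) ^ d ≤ 1 + 4 ^ d * κ := by
  induction d with
  | zero => simp; linarith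
  | succ d ih =>
    have h4 : (1:ℝ) ≤ 4 ^ d := one_le_pow₀ (by norm_num)
    calc (1 + κ) ^ (d + 1) = (1 + κ) ^ d * (1 + κ) := pow_succ _ _
      _ ≤ (1 + 4 ^ d * κ) * (1 + κ) := by gcongr
      _ = 1 + (1 + 4 ^ d + 4 ^ d * κ) * κ := by ring
      _ ≤ 1 + (4 ^ (d + 1)) * κ := by
          have : 4 ^ d * κ ≤ (4:ℝ) ^ d := by nlinarith
          have e : (4:ℝ) ^ (d + 1) = 4 * 4 ^ d := by ring
          rw [e]
          gcongr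
          linarith

theorem base (M₁ M₂ : Matrix (Fin d) (Fin d) ℤ) (h1 : M₁.det ≠ 0) (h3 : (M₁ - M₂).det ≠ 0)
    (h2 : M₂ ≠ 0) (α ε δ : ℝ) (hα : 0 < α) (hε : 0 < ε) (hδ : 0 < δ) :
    ∃ c : ℝ, 0 < c ∧ ∃ N₀ : ℕ, ∀ N : ℕ, N₀ ≤ N → ∀ A : Finset (Fin d → ℤ),
      (∀ x ∈ A, ∀ i, 1 ≤ x i ∧ x i ≤ N) → α * (N : ℝ) ^ d ≤ A.card →
      ∃ L : ℕ, (L : ℝ) ≤ δ * N ∧ ∃ V : ℝ, (α ^ 3 - ε) * (N : ℝ) ^ d ≤ V ∧
        c * (N : ℝ) ^ d ≤ ((pop M₁ M₂ A L V).card : ℝ) := by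
  classical
  have hd : 1 ≤ d := by
    rcases Nat.eq_zero_or_pos d with h | h
    · subst h
      exact absurd (Subsingleton.elim _ _) h2
    · exact h
  have hα3 : 0 < α ^ 3 := by positivity
  obtain ⟨e, hedef⟩ : ∃ e : ℝ, e = min ε (α ^ 3) := ⟨_, rfl⟩
  have he : 0 < e := by rw [hedef]; exact lt_min hε hα3
  have heε : e ≤ ε := by rw [hedef]; exact min_le_left _ _
  have heα : e ≤ α ^ 3 := by rw [hedef]; exact min_le_right _ _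
  obtain ⟨κ', hκ'def⟩ : ∃ κ' : ℝ, κ' = e / (8 * α ^ 3) := ⟨_, rfl⟩
  have hκ' : 0 < κ' := by rw [hκ'def]; positivity
  have hκ'1 : κ' ≤ 1 / 8 := by
    rw [hκ'def, div_le_div_iff₀ (by positivity) (by norm_num)]
    nlinarith
  have h4d : (1:ℝ) ≤ 4 ^ d := one_le_pow₀ (by norm_num)
  obtain ⟨κ, hκdef⟩ : ∃ κ : ℝ, κ = κ' / 4 ^ d := ⟨_, rfl⟩
  have hκ : 0 < κ := by rw [hκdef]; positivity
  have hκ1 : κ ≤ 1 / 8 := by
    rw [hκdef]; exact (div_le_self hκ'.le h4d).trans hκ'1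
  have hκpow : (1 + κ) ^ d ≤ 1 + κ' := by
    refine (one_add_pow_le κ hκ.le (by linarith) d).trans ?_
    rw [hκdef]
    have : (4:ℝ) ^ d * (κ' / 4 ^ d) = κ' := by field_simp
    rw [this]
  obtain ⟨H, hH⟩ : ∃ H : ℕ, H = ent M₁ + ent M₂ + 1 := ⟨_, rfl⟩
  obtain ⟨D, hD⟩ : ∃ D : ℕ, D = ⌈4 * (H : ℝ) / κ⌉₊ + ⌈4 / δ⌉₊ + 1 := ⟨_, rfl⟩
  have hD0 : 0 < D := by omega
  have hDr : 4 * (H : ℝ) / κ ≤ D := by
    have h5 := Nat.le_ceil (4 * (H : ℝ) / κ)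
    have h6 : (0:ℝ) ≤ (⌈4 / δ⌉₊ : ℝ) := by positivity
    rw [hD]; push_cast
    linarith
  have hDδ : 4 / δ ≤ D := by
    have h5 := Nat.le_ceil (4 / δ)
    have h6 : (0:ℝ) ≤ (⌈4 * (H : ℝ) / κ⌉₊ : ℝ) := by positivity
    rw [hD]; push_cast
    linarith
  obtain ⟨Δ, hΔ⟩ : ∃ Δ : ℤ, Δ = M₁.det * (M₁ - M₂).det := ⟨_, rfl⟩
  have hΔ0 : Δ ≠ 0 := by rw [hΔ]; exact mul_ne_zero h1 h3
  have hΔpos : 0 < Δ.natAbs := Int.natAbs_pos.2 hΔ0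
  obtain ⟨η, hηdef⟩ : ∃ η : ℝ, η = min 1 (e / 40) := ⟨_, rfl⟩
  have hη : 0 < η := by rw [hηdef]; exact lt_min one_pos (by positivity)
  have hη1 : η ≤ 1 := by rw [hηdef]; exact min_le_left _ _
  have hη2 : η ≤ e / 40 := by rw [hηdef]; exact min_le_right _ _
  obtain ⟨C, hC, hmain⟩ := exists_good ((2 * (D : ℝ)) ^ d) η (by positivity) hη hη1
  refine ⟨e / (4 * (C + 1)), by positivity,
    ⌈2 * (2 * (H : ℝ) + Δ.natAbs + 1) / κ⌉₊ + ⌈4 * (8 ^ d * (C + 1)) / e⌉₊ + ⌈4 / δ⌉₊ + 1, ?_⟩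
  intro N hN A hA hcard
  have hN1 : 1 ≤ N := by omega
  have hNr : (0 : ℝ) < N := by exact_mod_cast hN1
  have hNr1 : (1 : ℝ) ≤ N := by exact_mod_cast hN1
  have hNb1 : 2 * (2 * (H : ℝ) + Δ.natAbs + 1) / κ ≤ N := by
    refine (Nat.le_ceil _).trans ?_
    exact_mod_cast (by omega : ⌈2 * (2 * (H : ℝ) + Δ.natAbs + 1) / κ⌉₊ ≤ N)
  have hNb2 : 4 * (8 ^ d * (C + 1)) / e ≤ N := by
    refine (Nat.le_ceil _).trans ?_
    exact_mod_cast (by omega : ⌈4 * (8 ^ d * (C + 1)) / e⌉₊ ≤ N)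
  have hNb3 : 4 / δ ≤ N := by
    refine (Nat.le_ceil _).trans ?_
    exact_mod_cast (by omega : ⌈4 / δ⌉₊ ≤ N)
  obtain ⟨R, hR⟩ : ∃ R : ℕ, R = N / D + 1 := ⟨_, rfl⟩
  obtain ⟨K, hK⟩ : ∃ K : ℕ, K = H * (2 * R) := ⟨_, rfl⟩
  obtain ⟨m, hm⟩ : ∃ m : ℕ, m = Δ.natAbs * ((N + K) / Δ.natAbs + 1) + 1 := ⟨_, rfl⟩
  have hmlow : N + K < m := by
    have := Nat.lt_mul_div_succ (N + K) hΔpos
    rw [hm]; omega
  have hmup : m ≤ N + K + Δ.natAbs + 1 := by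
    have := Nat.mul_div_le (N + K) Δ.natAbs
    rw [hm, mul_add, mul_one]; omega
  have : NeZero m := ⟨by omega⟩
  have hRD : N < D * R := by rw [hR]; exact Nat.lt_mul_div_succ N hD0
  have hRr : (R : ℝ) ≤ N / D + 1 := by
    rw [hR]; push_cast
    have := Nat.cast_div_le (m := N) (n := D) (α := ℝ)
    linarith
  have hR0 : 0 < R := by rw [hR]; exact Nat.succ_pos _
  have hD1 : (1 : ℝ) ≤ D := by exact_mod_cast hD0
  have hDp : (0 : ℝ) < D := by linarith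
  have hR2N : (R : ℝ) ≤ 2 * N := by
    have a1 : (N : ℝ) / D ≤ N := div_le_self hNr.le hD1
    linarith
  have hRδ : 2 * (R : ℝ) ≤ δ * N := by
    have a1 : (N : ℝ) / D ≤ δ / 4 * N := by
      rw [div_le_iff₀ hDp]
      rw [div_le_iff₀ hδ] at hDδ
      nlinarith
    rw [div_le_iff₀ hδ] at hNb3
    linarith
  have hmr : (m : ℝ) ≤ (1 + κ) * N := by
    have a1 : (m : ℝ) ≤ N + K + Δ.natAbs + 1 := by exact_mod_cast hmup
    have a2 : (K : ℝ) ≤ 2 * H * (N / D) + 2 * H := by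
      rw [hK]; push_cast
      have : (H : ℝ) * (2 * R) ≤ H * (2 * (N / D + 1)) :=
        mul_le_mul_of_nonneg_left (by linarith) (by positivity)
      linarith
    have a3 : 2 * (H : ℝ) * (N / D) ≤ κ / 2 * N := by
      rw [div_le_iff₀ hκ] at hDr
      rw [← mul_div_assoc, div_le_iff₀ hDp]
      nlinarith
    have a4 : 2 * (H : ℝ) + Δ.natAbs + 1 ≤ κ / 2 * N := by
      rw [div_le_iff₀ hκ] at hNb1
      linarith
    linarith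
  have hH' : ent M₁ + ent M₂ ≤ H := by omega
  have hNm' : N ≤ m := by omega
  have hNmr : (N : ℝ) ≤ m := by exact_mod_cast hNm'
  have hK' : (ent M₁ + ent M₂) * (2 * R) ≤ K := by
    rw [hK]; exact Nat.mul_le_mul_right _ hH'
  have hRm : R ≤ m := by
    have : R ≤ K := by
      rw [hK, hH]
      nlinarith
    omega
  have hsize : (m : ℝ) ^ d ≤ (2 * (D : ℝ)) ^ d * (R : ℝ) ^ d := by
    have a1 : (N : ℝ) ≤ D * R := by exact_mod_cast hRD.le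
    have a2 : (m : ℝ) ≤ 2 * D * R := by nlinarith
    rw [← mul_pow]
    exact pow_le_pow_left₀ (by positivity) a2 _
  obtain ⟨P, hP⟩ : ∃ P : ℝ, P = (N : ℝ) ^ d := ⟨_, rfl⟩
  have hP0 : 0 < P := by rw [hP]; positivity
  have hPg : P ≤ (m : ℝ) ^ d := by rw [hP]; exact pow_le_pow_left₀ hNr.le hNmr _
  have hgP : (m : ℝ) ^ d ≤ (1 + κ') * P := by
    calc (m : ℝ) ^ d ≤ ((1 + κ) * N) ^ d := pow_le_pow_left₀ (by positivity) hmr _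
      _ = (1 + κ) ^ d * P := by rw [mul_pow, hP]
      _ ≤ (1 + κ') * P := mul_le_mul_of_nonneg_right hκpow hP0.le
  rw [← hP] at hcard ⊢
  have hnum := numeric hα he heα hκ'def hη hη2 hP0 hPg hgP hcard
  have hV : 0 ≤ (α ^ 3 - e) * P := mul_nonneg (by linarith) hP0.le
  have hcore := core M₁ M₂ h1 h3 h2 m N R K
    (isUnit_of_dvd m _ Δ (hΔ ▸ Dvd.intro _ rfl) _ hm)
    (isUnit_of_dvd m _ Δ (hΔ ▸ Dvd.intro_left _ rfl) _ hm) hmlow.le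
    hK' hRm hR0 A hA
    ((2 * (D : ℝ)) ^ d) η C _ hC hV (hmain (Fin d → ZMod m)) hsize
  refine ⟨2 * R, by push_cast; exact hRδ, (α ^ 3 - e) * P,
    mul_le_mul_of_nonneg_right (by linarith) hP0.le, ?_⟩
  obtain ⟨Q, hQ⟩ : ∃ Q : ℝ, Q = ((pop M₁ M₂ A (2 * R) ((α ^ 3 - e) * P)).card : ℝ) := ⟨_, rfl⟩
  rw [← hQ] at hcore ⊢
  have hQ0 : 0 ≤ Q := by rw [hQ]; positivity
  have hsmall : (4 * (R:ℝ)) ^ (d - 1) * (C + 1) ≤ e / 4 * P := by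
    have a1 : (4 * (R:ℝ)) ^ (d - 1) ≤ (8 * N) ^ (d - 1) := by
      apply pow_le_pow_left₀ (by positivity)
      linarith
    have a2 : (8 * (N:ℝ)) ^ (d - 1) = 8 ^ (d - 1) * N ^ (d - 1) := mul_pow _ _ _
    have a3 : P = N * N ^ (d - 1) := by
      rw [hP, ← pow_succ', Nat.sub_add_cancel hd]
    have a4 : (8:ℝ) ^ (d - 1) ≤ 8 ^ d := pow_le_pow_right₀ (by norm_num) (Nat.sub_le _ _)
    have a5 : 4 * (8 ^ d * (C + 1)) ≤ N * e := by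
      rw [div_le_iff₀ he] at hNb2; exact hNb2
    have a6 : 8 ^ (d - 1) * (C + 1) ≤ e / 4 * N := by
      have : 8 ^ (d - 1) * (C + 1) ≤ 8 ^ d * (C + 1) := by gcongr
      linarith
    calc (4 * (R:ℝ)) ^ (d - 1) * (C + 1) ≤ (8 ^ (d - 1) * N ^ (d - 1)) * (C + 1) := by
          rw [← a2]; gcongr
      _ = (8 ^ (d - 1) * (C + 1)) * N ^ (d - 1) := by ring
      _ ≤ (e / 4 * N) * N ^ (d - 1) := by gcongr
      _ = e / 4 * P := by rw [a3]; ring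
  have hfin : e / 4 * P ≤ Q * (C + 1) := by
    have b1 : (e / 2) * P ≤ (Q + (4 * (R:ℝ)) ^ (d - 1)) * C := by linarith
    have b2 : (Q + (4 * (R:ℝ)) ^ (d - 1)) * C ≤ (Q + (4 * (R:ℝ)) ^ (d - 1)) * (C + 1) := by
      have : 0 ≤ Q + (4 * (R:ℝ)) ^ (d - 1) := by positivity
      nlinarith
    have b3 : (Q + (4 * (R:ℝ)) ^ (d - 1)) * (C + 1) =
        Q * (C + 1) + (4 * (R:ℝ)) ^ (d - 1) * (C + 1) := by ring
    linarith
  have hC1 : 0 < C + 1 := by linarith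
  calc e / (4 * (C + 1)) * P = (e / 4 * P) / (C + 1) := by field_simp
    _ ≤ Q := by rw [div_le_iff₀ hC1]; exact hfin

end Pool.Agent.Y940.PDd
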