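import Mathlib
import Pool.Agent.Y940.PDd.Base

set_option autoImplicit false
set_option linter.unusedVariables false

namespace Pool.Agent.Y940.PDd

open Finset

variable {d : ℕ}

/-- the conclusion -/
def Good (M₁ M₂ : Matrix (Fin d) (Fin d) ℤ) (α ε δ : ℝ) : Prop :=
  ∃ c : ℝ, 0 < c ∧ ∃ N₀ : ℕ, ∀ N : ℕ, N₀ ≤ N → ∀ A : Finset (Fin d → ℤ),
    (∀ x ∈ A, ∀ i, 1 ≤ x i ∧ x i ≤ N) → α * (N : ℝ) ^ d ≤ A.card →
    ∃ P : Finset (Fin d → ℤ), c * (N : ℝ) ^ d ≤ P.card ∧ ∀ n ∈ P,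
      (∀ i, |(n i : ℝ)| ≤ δ * N) ∧ M₁.mulVec n ≠ 0 ∧ M₂.mulVec n ≠ 0 ∧
      M₁.mulVec n ≠ M₂.mulVec n ∧ (α ^ 3 - ε) * (N : ℝ) ^ d < copies M₁ M₂ A n

theorem good_base (M₁ M₂ : Matrix (Fin d) (Fin d) ℤ) (h1 : M₁.det ≠ 0) (h3 : (M₁ - M₂).det ≠ 0)
    (h2 : M₂ ≠ 0) (α ε δ : ℝ) (hα : 0 < α) (hε : 0 < ε) (hδ : 0 < δ) : Good M₁ M₂ α ε δ := by
  obtain ⟨c, hc, N₀, h⟩ := base M₁ M₂ h1 h3 h2 α ε δ hα hε hδ
  refine ⟨c, hc, N₀, fun N hN A hA hcard => ?_⟩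
  obtain ⟨L, hL, V, hV, hP⟩ := h N hN A hA hcard
  refine ⟨pop M₁ M₂ A L V, hP, fun n hn => ?_⟩
  obtain ⟨hb, a1, a2, a3, a4⟩ := (mem_pop _ _ _ _ _ _).1 hn
  refine ⟨fun i => ?_, a1, a2, a3, hV.trans_lt a4⟩
  have hb' := (mem_box L n).1 hb i
  have e1 : |n i| ≤ (L : ℤ) := abs_le.2 ⟨hb'.1.le, hb'.2.le⟩
  have e2 : |(n i : ℝ)| ≤ (L : ℝ) := by exact_mod_cast e1
  exact e2.trans hL

theorem Good.swap {M₁ M₂ : Matrix (Fin d) (Fin d) ℤ} {α ε δ : ℝ} (h : Good M₂ M₁ α ε δ) :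
    Good M₁ M₂ α ε δ := by
  obtain ⟨c, hc, N₀, h⟩ := h
  refine ⟨c, hc, N₀, fun N hN A hA hcard => ?_⟩
  obtain ⟨P, hP, hn⟩ := h N hN A hA hcard
  refine ⟨P, hP, fun n hnP => ?_⟩
  obtain ⟨a0, a1, a2, a3, a4⟩ := hn n hnP
  refine ⟨a0, a2, a1, a3.symm, ?_⟩
  have e : copies M₂ M₁ A n = copies M₁ M₂ A n := by
    unfold copies
    congr 1
    ext x
    simp only [Finset.mem_filter]
    tauto
  rw [← e]; exact a4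

theorem Good.shift {M₁ M₂ : Matrix (Fin d) (Fin d) ℤ} {α ε δ : ℝ}
    (h : Good (-M₁) (M₂ - M₁) α ε δ) : Good M₁ M₂ α ε δ := by
  obtain ⟨c, hc, N₀, h⟩ := h
  refine ⟨c, hc, N₀, fun N hN A hA hcard => ?_⟩
  obtain ⟨P, hP, hn⟩ := h N hN A hA hcard
  refine ⟨P, hP, fun n hnP => ?_⟩
  obtain ⟨a0, a1, a2, a3, a4⟩ := hn n hnP
  rw [Matrix.neg_mulVec] at a1 a3
  rw [Matrix.sub_mulVec] at a2 a3
  refine ⟨a0, fun h => a1 (by rw [h, neg_zero]), fun h => a3 (by rw [h, zero_sub]),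
    fun h => a2 (by rw [h, sub_self]), ?_⟩
  have e : copies (-M₁) (M₂ - M₁) A n ≤ copies M₁ M₂ A n := by
    unfold copies
    refine Finset.card_le_card_of_injOn (fun x => x + (-M₁).mulVec n) ?_ ?_
    · intro x hx
      obtain ⟨b1, b2, b3⟩ := Finset.mem_filter.1 (Finset.mem_coe.1 hx)
      rw [Finset.mem_coe, Finset.mem_filter]
      refine ⟨b2, ?_, ?_⟩
      · have : x + (-M₁).mulVec n + M₁.mulVec n = x := by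
          rw [Matrix.neg_mulVec]; abel
        rw [this]; exact b1
      · have : x + (-M₁).mulVec n + M₂.mulVec n = x + (M₂ - M₁).mulVec n := by
          rw [Matrix.neg_mulVec, Matrix.sub_mulVec]; abel
        rw [this]; exact b3
    · intro x _ y _ h
      exact add_right_cancel h
  refine a4.trans_le ?_
  exact_mod_cast e

lemma det_neg_ne (M : Matrix (Fin d) (Fin d) ℤ) (h : M.det ≠ 0) : (-M).det ≠ 0 := by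
  rw [Matrix.det_neg]
  exact mul_ne_zero (pow_ne_zero _ (by norm_num)) h

theorem good_all (M₁ M₂ : Matrix (Fin d) (Fin d) ℤ) (h₁ : M₁ ≠ 0) (h₂ : M₂ ≠ 0) (h₃ : M₁ ≠ M₂)
    (h : (M₁.det ≠ 0 ∧ M₂.det ≠ 0) ∨ (M₁.det ≠ 0 ∧ (M₂ - M₁).det ≠ 0) ∨
      (M₂.det ≠ 0 ∧ (M₂ - M₁).det ≠ 0))
    (α ε δ : ℝ) (hα : 0 < α) (hε : 0 < ε) (hδ : 0 < δ) : Good M₁ M₂ α ε δ := by
  rcases h with ⟨a, b⟩ | ⟨a, b⟩ | ⟨a, b⟩
  · apply Good.shift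
    refine good_base (-M₁) (M₂ - M₁) (det_neg_ne _ a) ?_ (sub_ne_zero.2 h₃.symm) α ε δ hα hε hδ
    have : -M₁ - (M₂ - M₁) = -M₂ := by abel
    rw [this]; exact det_neg_ne _ b
  · refine good_base M₁ M₂ a ?_ h₂ α ε δ hα hε hδ
    have : M₁ - M₂ = -(M₂ - M₁) := by abel
    rw [this]; exact det_neg_ne _ b
  · exact Good.swap (good_base M₂ M₁ a b h₁ α ε δ hα hε hδ)

end Pool.Agent.Y940.PDd
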